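import Pool.Agent.H979.DE.Stm

/-!
If all degrees are two and the steps are eventually regular there is eventually only one exit from
each vertex.
-/

set_option autoImplicit false

open MeasureTheory Finset Filter Pool.Agent.H41.Derrw Pool.Agent.H979.DE

namespace Pool.Agent.H788

namespace DECYM

variable {V : Type} [DecidableEq V]

theorem cross_succ (w : ℕ → V) (n : ℕ) (x y : V) : cross w (n + 1) x y = cross w n x y +
    ((if w n = x ∧ w (n + 1) = y then 1 else 0) - (if w n = y ∧ w (n + 1) = x then 1 else 0)) := by
  unfold cross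
  rw [Finset.sum_range_succ]

theorem cross_anti (w : ℕ → V) (n : ℕ) (x y : V) : cross w n y x = - cross w n x y := by
  unfold cross
  rw [← Finset.sum_neg_distrib]
  exact Finset.sum_congr rfl fun k _ => by ring

theorem persist {w : ℕ → V} {N : ℕ} (hN : ∀ n, N ≤ n → Reg w n) {x y : V} {n : ℕ} (hn : N ≤ n)
    (h : 0 < cross w n x y) : ∀ k, n ≤ k → 0 < cross w k x y := by
  intro k hk
  induction k, hk using Nat.le_induction with
  | base => exact h
  | succ k hk ih =>
    rw [cross_succ]
    have h1 : ¬ (w k = y ∧ w (k + 1) = x) := by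
      rintro ⟨h1, h2⟩
      have h3 : 0 < cross w k (w k) (w (k + 1)) := hN k (hn.trans hk)
      rw [h1, h2, cross_anti] at h3
      linarith
    rw [if_neg h1]
    split_ifs <;> linarith

end DECYM

open DECYM in
theorem de_cym (h1 : S_CONS) : S_CYM := by
  rintro V _ G _ w hval hdeg ⟨N, hN⟩ x y z hyz ⟨hy, hz⟩
  obtain ⟨n1, hn1, e1, e2⟩ := frequently_atTop.1 hy N
  obtain ⟨n2, hn2, e3, e4⟩ := frequently_atTop.1 hz N
  obtain ⟨k, hk, e5, -⟩ := frequently_atTop.1 hy (max n1 n2)
  have c1 : 0 < cross w n1 x y := by
    have := hN n1 hn1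
    unfold Reg at this
    rw [e1, e2] at this
    exact this
  have c2 : 0 < cross w n2 x z := by
    have := hN n2 hn2
    unfold Reg at this
    rw [e3, e4] at this
    exact this
  have d1 := persist hN hn1 c1 k ((le_max_left _ _).trans hk)
  have d2 := persist hN hn2 c2 k ((le_max_right _ _).trans hk)
  have a1 : y ∈ G.neighborFinset x := by
    rw [SimpleGraph.mem_neighborFinset]
    have := hval (n1 + 1) n1 (Nat.lt_succ_self n1)
    rw [e1, e2] at this
    exact this
  have a2 : z ∈ G.neighborFinset x := by
    rw [SimpleGraph.mem_neighborFinset]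
    have := hval (n2 + 1) n2 (Nat.lt_succ_self n2)
    rw [e3, e4] at this
    exact this
  have hset : ({y, z} : Finset V) = G.neighborFinset x := by
    refine Finset.eq_of_subset_of_card_le ?_ ?_
    · intro v hv
      rw [Finset.mem_insert, Finset.mem_singleton] at hv
      rcases hv with rfl | rfl
      · exact a1
      · exact a2
    · rw [Finset.card_pair hyz, SimpleGraph.card_neighborFinset_eq_degree, hdeg x]
  have hs := h1 V G w k (hval k) x
  rw [← hset, Finset.sum_pair hyz, if_pos e5] at hs
  have h3 : (if w 0 = x then (1 : ℤ) else 0) ≤ 1 := by split_ifs <;> norm_num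
  linarith

end Pool.Agent.H788
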